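import Pool.Agent.H76.MXT.Stmts

/-!
Row INT of the board mxt (MP_ffb5eb_co), by helper54: the winding is a multiple of `2 π`.
-/

set_option autoImplicit false

namespace Pool.MXT

open Set

namespace H54

lemma side1 {F : ℝ → ℝ → ℂ} {a b c d : ℝ} (hF : Con F a b c d) (hN : NZB F a b c d) (hcd : c ≤ d) :
    Ok (fun x => F x c) a b ∧ Ok (fun x => F x d) a b := by
  refine ⟨⟨?_, fun x hx => (hN.1 x hx).1⟩, ⟨?_, fun x hx => (hN.1 x hx).2⟩⟩
  · have h1 : ContinuousOn (fun x : ℝ => (x, c)) (Icc a b) := by fun_prop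
    exact hF.comp h1 (fun x hx => ⟨hx, left_mem_Icc.mpr hcd⟩)
  · have h1 : ContinuousOn (fun x : ℝ => (x, d)) (Icc a b) := by fun_prop
    exact hF.comp h1 (fun x hx => ⟨hx, right_mem_Icc.mpr hcd⟩)

lemma side2 {F : ℝ → ℝ → ℂ} {a b c d : ℝ} (hF : Con F a b c d) (hN : NZB F a b c d) (hab : a ≤ b) :
    Ok (fun y => F a y) c d ∧ Ok (fun y => F b y) c d := by
  refine ⟨⟨?_, fun x hx => (hN.2 x hx).1⟩, ⟨?_, fun x hx => (hN.2 x hx).2⟩⟩
  · have h1 : ContinuousOn (fun y : ℝ => (a, y)) (Icc c d) := by fun_prop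
    exact hF.comp h1 (fun x hx => ⟨left_mem_Icc.mpr hab, hx⟩)
  · have h1 : ContinuousOn (fun y : ℝ => (b, y)) (Icc c d) := by fun_prop
    exact hF.comp h1 (fun x hx => ⟨right_mem_Icc.mpr hab, hx⟩)

/-- Four unit steps around a rectangle. -/
lemma steps (P1 P2 P3 P4 E1 E2 E3 E4 : ℂ) (n1 n2 n3 n4 : ℂ) (h1 : n1 ≠ 0) (h2 : n2 ≠ 0)
    (h3 : n3 ≠ 0) (h4 : n4 ≠ 0) (hP : P1 ≠ 0)
    (e1 : n1 * P2 = n2 * P1 * E1) (e2 : n2 * P3 = n3 * P2 * E2)
    (e3 : n4 * P3 = n3 * P4 * E3) (e4 : n1 * P4 = n4 * P1 * E4) : E1 * E2 = E3 * E4 := by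
  have hk : n1 * n2 * n3 * n4 * P1 ≠ 0 :=
    mul_ne_zero (mul_ne_zero (mul_ne_zero (mul_ne_zero h1 h2) h3) h4) hP
  have a1 : n1 * (n2 * P3) = n3 * n2 * P1 * E1 * E2 := by
    rw [e2]
    linear_combination n3 * E2 * e1
  have a2 : n1 * (n4 * P3) = n3 * n4 * P1 * E4 * E3 := by
    rw [e3]
    linear_combination n3 * E3 * e4
  have a3 : n3 * n2 * P1 * n4 * (E1 * E2) = n3 * n2 * P1 * n4 * (E3 * E4) := by
    linear_combination n2 * a2 - n4 * a1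
  have hk' : n3 * n2 * P1 * n4 ≠ 0 := mul_ne_zero (mul_ne_zero (mul_ne_zero h3 h2) hP) h4
  exact mul_left_cancel₀ hk' a3

end H54

open H54 in
theorem int_thm (hT : S_TUR) : S_INT := by
  intro F a b c d hab hcd hF hN
  obtain ⟨o1, o3⟩ := side1 hF hN hcd
  obtain ⟨o4, o2⟩ := side2 hF hN hab
  have t1 := (hT _ a b hab o1).2.2.2.2
  have t3 := (hT _ a b hab o3).2.2.2.2
  have t2 := (hT _ c d hcd o2).2.2.2.2
  have t4 := (hT _ c d hcd o4).2.2.2.2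
  have hn : ∀ z : ℂ, z ≠ 0 → (‖z‖ : ℂ) ≠ 0 := fun z hz => by
    exact_mod_cast (norm_ne_zero_iff.mpr hz)
  have p1 : F a c ≠ 0 := (hN.1 a (left_mem_Icc.mpr hab)).1
  have p2 : F b c ≠ 0 := (hN.1 b (right_mem_Icc.mpr hab)).1
  have p3 : F b d ≠ 0 := (hN.1 b (right_mem_Icc.mpr hab)).2
  have p4 : F a d ≠ 0 := (hN.1 a (left_mem_Icc.mpr hab)).2
  have key := steps (F a c) (F b c) (F b d) (F a d) _ _ _ _ (‖F a c‖ : ℂ) (‖F b c‖ : ℂ)
    (‖F b d‖ : ℂ) (‖F a d‖ : ℂ) (hn _ p1) (hn _ p2) (hn _ p3) (hn _ p4) p1 t1 t2 t3 t4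
  have h1 : Complex.exp ((wnd F a b c d : ℂ) * Complex.I) = 1 := by
    have h2 : (wnd F a b c d : ℂ) * Complex.I =
        ((turn (fun x => F x c) a b : ℂ) * Complex.I + (turn (fun y => F b y) c d : ℂ) * Complex.I) -
        ((turn (fun x => F x d) a b : ℂ) * Complex.I +
          (turn (fun y => F a y) c d : ℂ) * Complex.I) := by
      unfold wnd
      push_cast
      ring
    rw [h2, Complex.exp_sub, Complex.exp_add, Complex.exp_add, key]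
    exact div_self (mul_ne_zero (Complex.exp_ne_zero _) (Complex.exp_ne_zero _))
  obtain ⟨k, hk⟩ := Complex.exp_eq_one_iff.mp h1
  refine ⟨k, ?_⟩
  have h3 : (wnd F a b c d : ℂ) * Complex.I = ((2 * Real.pi * k : ℝ) : ℂ) * Complex.I := by
    rw [hk]
    push_cast
    ring
  have h4 := mul_right_cancel₀ Complex.I_ne_zero h3
  exact_mod_cast h4

end Pool.MXT
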